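import Pool.Agent.K1H73.ON.Stm

set_option autoImplicit false

/-! Project ON, piece PN: the norm of `(1 + t e^(2 i θ)) / (1 + t)`. -/

namespace Pool.Agent.K1H20.ON

theorem t_PN : Pool.Agent.K1H73.ON.PN := by
  intro t θ ht
  have ht1 : 0 < 1 + t := by linarith
  have e : Complex.exp (2 * θ * Complex.I) =
      ((Real.cos (2 * θ) : ℝ) : ℂ) + ((Real.sin (2 * θ) : ℝ) : ℂ) * Complex.I := by
    rw [Complex.exp_mul_I]
    push_cast
    rfl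
  have e2 : (1 + (t : ℂ) * Complex.exp (2 * θ * Complex.I)) =
      ((1 + t * Real.cos (2 * θ) : ℝ) : ℂ) + ((t * Real.sin (2 * θ) : ℝ) : ℂ) * Complex.I := by
    rw [e]
    push_cast
    ring
  have e3 : ‖(1 + (t : ℂ) * Complex.exp (2 * θ * Complex.I))‖ ^ 2 =
      (1 + t) ^ 2 - 4 * t * Real.sin θ ^ 2 := by
    rw [Complex.sq_norm, e2, Complex.normSq_add_mul_I]
    have h1 : Real.cos (2 * θ) = 1 - 2 * Real.sin θ ^ 2 := by
      rw [Real.cos_two_mul, Real.cos_sq']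
      ring
    have h2 : Real.sin (2 * θ) ^ 2 = 1 - Real.cos (2 * θ) ^ 2 := Real.sin_sq _
    have h3 : (1 + t * Real.cos (2 * θ)) ^ 2 + (t * Real.sin (2 * θ)) ^ 2 =
        1 + 2 * t * Real.cos (2 * θ) + t ^ 2 * Real.cos (2 * θ) ^ 2 + t ^ 2 * Real.sin (2 * θ) ^ 2 := by
      ring
    rw [h3, h2, h1]
    ring
  have e4 : ‖(1 + (t : ℂ))‖ = 1 + t := by
    rw [show (1 + (t : ℂ)) = ((1 + t : ℝ) : ℂ) by push_cast; rfl, Complex.norm_real,
      Real.norm_of_nonneg ht1.le]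
  rw [norm_div, e4]
  obtain ⟨s, hs⟩ : ∃ s, ‖(1 + (t : ℂ) * Complex.exp (2 * θ * Complex.I))‖ = s := ⟨_, rfl⟩
  rw [hs] at e3 ⊢
  have hs0 : 0 ≤ s := by rw [← hs]; exact norm_nonneg _
  have hsin : 0 ≤ Real.sin θ ^ 2 := sq_nonneg _
  have hs1 : s ≤ 1 + t := by
    have : s ^ 2 ≤ (1 + t) ^ 2 := by nlinarith
    exact (sq_le_sq₀ hs0 ht1.le).1 this
  have e5 : 1 - s / (1 + t) = ((1 + t) * (1 + t - s)) / (1 + t) ^ 2 := by
    field_simp
  rw [e5, div_mul_eq_mul_div]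
  refine div_le_div_of_nonneg_right ?_ (by positivity)
  -- t sin² ≤ (1+t)(1+t-s), as 4 t sin² = (1+t-s)(1+t+s) ≤ 2(1+t)(1+t-s)
  have h6 : 4 * (t * Real.sin θ ^ 2) = (1 + t - s) * (1 + t + s) := by nlinarith
  nlinarith [mul_nonneg (sub_nonneg.2 hs1) ht1.le, mul_nonneg (sub_nonneg.2 hs1) (sub_nonneg.2 hs1)]

end Pool.Agent.K1H20.ON
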